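import Pool.Agent.Helper38.EC.GoalsE1

/-!
# MP_ecc237_nt, packet PS: absolute summability of the products.
-/

set_option autoImplicit false

open MeasureTheory Filter Topology Set EC237 EC237.DX

namespace Pool.Agent.Helper75.EC.E_PS

lemma rk_neg (s : ℤ × ℤ) : rk (-s) = rk s := by
  unfold rk
  simp

lemma rk_one_le {s : ℤ × ℤ} (hs : s ≠ 0) : 1 ≤ rk s := by
  unfold rk
  have h : (1:ℝ) ≤ (s.1:ℝ) ^ 2 + (s.2:ℝ) ^ 2 := by
    have h0 : (1:ℤ) ≤ s.1 ^ 2 + s.2 ^ 2 := by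
      by_contra hcon
      have h1 : s.1 ^ 2 + s.2 ^ 2 = 0 := by nlinarith [sq_nonneg s.1, sq_nonneg s.2]
      have h2 : s.1 = 0 := by nlinarith [sq_nonneg s.1, sq_nonneg s.2]
      have h3 : s.2 = 0 := by nlinarith [sq_nonneg s.1, sq_nonneg s.2]
      exact hs (Prod.ext h2 h3)
    exact_mod_cast h0
  calc (1:ℝ) = Real.sqrt 1 := by simp
    _ ≤ _ := Real.sqrt_le_sqrt h

lemma pw_nonneg (k : ℤ × ℤ) : 0 ≤ pw k := by
  unfold pw
  exact Real.rpow_nonneg (Real.sqrt_nonneg _) _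

/-- exponents of the coefficient bounds -/
noncomputable def ee (i : ℕ) : ℝ := if i = 0 then 1 / 2 else if i = 1 then -(1 / 2) else -1

lemma ee_sum {i j l : ℕ} (h : i + j + l = 2) :
    ee i + ee j + -(2 + (l:ℝ)) ≤ -(5 / 2) := by
  have hi : i ≤ 2 := by omega
  have hj : j ≤ 2 := by omega
  have hl : l ≤ 2 := by omega
  interval_cases i <;> interval_cases j <;> interval_cases l <;> simp_all [ee] <;> norm_num

lemma bound (hXC : G_XC) {y : ℝ} {C : ℝ} (hC : 0 < C)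
    (hX : ∀ v1 v2 : SV, |v1.2| ≤ 1 → |v2.2| ≤ 1 → v1.1 ≠ 0 → v2.1 ≠ 0 → v1.1 + v2.1 ≠ 0 →
      ‖PowerSeries.coeff 0 (XX (y:ℂ) v1 v2)‖ ≤
        C * rk (v1.1 + v2.1) ^ (1 / 2 : ℝ) * (pw v1.1 + pw v2.1) ∧
      ‖PowerSeries.coeff 1 (XX (y:ℂ) v1 v2)‖ ≤
        C * rk (v1.1 + v2.1) ^ (-(1 / 2) : ℝ) * (pw v1.1 + pw v2.1) ∧
      ‖PowerSeries.coeff 2 (XX (y:ℂ) v1 v2)‖ ≤
        C * rk (v1.1 + v2.1) ^ (-1 : ℝ) * (pw v1.1 + pw v2.1))
    (hA : ∀ v : SV, |v.2| ≤ 2 → v.1 ≠ 0 → ∀ j : ℕ, j ≤ 2 →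
      ‖PowerSeries.coeff j (As (y:ℂ) v * Bs (y:ℂ) v)‖ ≤ C * rk v.1 ^ (-(2 + (j:ℝ))))
    {i j l : ℕ} (hijl : i + j + l = 2) {α1 α2 α3 α4 γ : ℤ}
    (h1 : |α1| ≤ 1) (h2 : |α2| ≤ 1) (h3 : |α3| ≤ 1) (h4 : |α4| ≤ 1) (hγ : |γ| ≤ 1)
    {k1 k2 k3 k4' : ℤ × ℤ} (e1 : k1 ≠ 0) (e2 : k2 ≠ 0) (e3 : k3 ≠ 0) (e4 : k4' ≠ 0)
    (hs : k3 + k4' = -(k1 + k2)) :
    ‖ab (y:ℂ) l γ (k1 + k2) * (xc (y:ℂ) i α1 α2 k1 k2 * xc (y:ℂ) j α3 α4 k3 k4')‖ ≤
      C ^ 3 * (pw (k1 + k2) * (pw k1 + pw k2) * (pw k3 + pw k4')) := by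
  have hP : 0 ≤ pw k1 + pw k2 := add_nonneg (pw_nonneg _) (pw_nonneg _)
  have hQ : 0 ≤ pw k3 + pw k4' := add_nonneg (pw_nonneg _) (pw_nonneg _)
  by_cases hz : k1 + k2 = 0
  · obtain ⟨-, -, -, -, -, -, -, -, -, h0, -, -⟩ := hXC (y:ℂ)
    rw [hz, h0 l γ]
    simp only [zero_mul, norm_zero]
    have := pw_nonneg (0 : ℤ × ℤ)
    positivity
  have hr : 1 ≤ rk (k1 + k2) := rk_one_le hz
  have hr0 : 0 < rk (k1 + k2) := by linarith
  have hz' : k3 + k4' ≠ 0 := by rw [hs]; exact neg_ne_zero.mpr hz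
  have key : ∀ (i : ℕ) (α α' : ℤ) (k k' : ℤ × ℤ), i ≤ 2 → |α| ≤ 1 → |α'| ≤ 1 → k ≠ 0 → k' ≠ 0 →
      k + k' ≠ 0 → ‖xc (y:ℂ) i α α' k k'‖ ≤ C * rk (k + k') ^ ee i * (pw k + pw k') := by
    intro i α α' k k' hi ha ha' hk hk' hkk
    obtain ⟨b0, b1, b2⟩ := hX (k, α) (k', α') ha ha' hk hk' hkk
    unfold xc
    interval_cases i
    · simpa [ee] using b0
    · simpa [ee] using b1
    · simpa [ee] using b2
  have B1 := key i α1 α2 k1 k2 (by omega) h1 h2 e1 e2 hz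
  have B2' := key j α3 α4 k3 k4' (by omega) h3 h4 e3 e4 hz'
  rw [hs, rk_neg] at B2'
  have B3 : ‖ab (y:ℂ) l γ (k1 + k2)‖ ≤ C * rk (k1 + k2) ^ (-(2 + (l:ℝ))) := by
    unfold ab
    exact hA (k1 + k2, γ) (by simpa using hγ.trans (by norm_num)) hz l (by omega)
  rw [norm_mul, norm_mul]
  set r := rk (k1 + k2) with hrdef
  have n1 : 0 ≤ C * r ^ ee i * (pw k1 + pw k2) := by positivity
  have n2 : 0 ≤ C * r ^ ee j * (pw k3 + pw k4') := by positivity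
  have n3 : 0 ≤ C * r ^ (-(2 + (l:ℝ))) := by positivity
  calc ‖ab (y:ℂ) l γ (k1 + k2)‖ * (‖xc (y:ℂ) i α1 α2 k1 k2‖ * ‖xc (y:ℂ) j α3 α4 k3 k4'‖)
      ≤ (C * r ^ (-(2 + (l:ℝ)))) *
        ((C * r ^ ee i * (pw k1 + pw k2)) * (C * r ^ ee j * (pw k3 + pw k4'))) :=
        mul_le_mul B3 (mul_le_mul B1 B2' (norm_nonneg _) n1) (by positivity) n3
    _ = C ^ 3 * ((r ^ ee i * r ^ ee j * r ^ (-(2 + (l:ℝ)))) * (pw k1 + pw k2) *
        (pw k3 + pw k4')) := by ring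
    _ ≤ C ^ 3 * (pw (k1 + k2) * (pw k1 + pw k2) * (pw k3 + pw k4')) := by
        have hpow : r ^ ee i * r ^ ee j * r ^ (-(2 + (l:ℝ))) ≤ pw (k1 + k2) := by
          rw [← Real.rpow_add hr0, ← Real.rpow_add hr0]
          unfold pw
          exact Real.rpow_le_rpow_of_exponent_le hr (ee_sum hijl)
        gcongr

theorem thm (hXC : G_XC) (hB2 : EC237.B2) (hB4 : EC237.B4) : EC237.DX.G_PS := by
  intro y hy i j l hijl α1 α2 α3 α4 γ h1 h2 h3 h4 hγ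
  obtain ⟨C, hC, hw⟩ := hB2 y hy
  obtain ⟨hX, hA⟩ := hw (y:ℂ) (by
    unfold Bd
    exact Metric.mem_ball_self (by positivity))
  obtain ⟨-, S1, S2, -⟩ := hB4
  refine ⟨?_, ?_⟩
  · refine Summable.of_nonneg_of_le ?_ ?_ (S1.mul_left (C ^ 3))
    · intro p
      split_ifs
      · exact norm_nonneg _
      · exact le_refl _
    · intro p
      have := pw_nonneg (p.1 + p.2.1)
      have := pw_nonneg p.1
      have := pw_nonneg p.2.1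
      have := pw_nonneg p.2.2
      have := pw_nonneg (k4 p)
      split_ifs with h
      · obtain ⟨e1, e2, e3, e4⟩ := h
        refine bound hXC hC hX hA hijl h1 h2 h3 h4 hγ e1 e2 e3 e4 ?_
        unfold k4
        abel
      · positivity
  · refine Summable.of_nonneg_of_le ?_ ?_ (S2.mul_left (C ^ 3))
    · intro p
      split_ifs
      · exact norm_nonneg _
      · exact le_refl _
    · intro p
      have := pw_nonneg (p.2.1 + p.2.2)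
      have := pw_nonneg p.1
      have := pw_nonneg p.2.1
      have := pw_nonneg p.2.2
      have := pw_nonneg (k4 p)
      split_ifs with h
      · obtain ⟨e1, e2, e3, e4⟩ := h
        refine bound hXC hC hX hA hijl h1 h2 h3 h4 hγ e2 e3 e4 e1 ?_
        unfold k4
        abel
      · positivity

end Pool.Agent.Helper75.EC.E_PS
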